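import Mathlib

/-!
# Stable multi-matchings of marked Poisson processes: definitions

`Q` is the set of points and `D x` is the number of stubs of the point `x`.
-/

set_option autoImplicit false

namespace Pool.Agent.N956.MM

open MeasureTheory

/-- `x` is willing to link to `y` in the graph `G`: it has fewer than `D x` incident edges, or it
has an incident edge of length greater than `dist x y`. -/
def Willing {E : Type} [MetricSpace E] (D : E → ℕ) (G : SimpleGraph E) (x y : E) : Prop :=
  (G.neighborSet x).encard < D x ∨ ∃ z, G.Adj x z ∧ dist x y < dist x z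

/-- `G` is a stable multi-matching of the points of `Q` with stubs `D`: a simple graph on `Q` in
which every `x ∈ Q` has at most `D x` incident edges, such that no two distinct non-adjacent points
of `Q` are willing to link to each other. -/
structure IsStableMultiMatching {E : Type} [MetricSpace E] (Q : Set E) (D : E → ℕ)
    (G : SimpleGraph E) : Prop where
  mem : ∀ x y, G.Adj x y → x ∈ Q
  deg : ∀ x ∈ Q, (G.neighborSet x).encard ≤ D x
  stable : ∀ x ∈ Q, ∀ y ∈ Q, x ≠ y → ¬ G.Adj x y → ¬ (Willing D G x y ∧ Willing D G y x)

/-- `G` has a connected component with infinitely many vertices. -/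
def HasInfiniteComponent {E : Type} (G : SimpleGraph E) : Prop :=
  ∃ x, {y | G.Reachable x y}.Infinite

/-- The number of points `x` of `Q` for which `(x, D x)` belongs to `A`. -/
noncomputable def count {E : Type} (Q : Set E) (D : E → ℕ) (A : Set (E × ℕ)) : ℕ∞ :=
  {x | x ∈ Q ∧ (x, D x) ∈ A}.encard

/-- `Q` is a homogeneous Poisson process of intensity one on `E`, whose points `x` carry
independent marks `D x` of law `μ`: the set of the pairs `(x, D x)`, `x ∈ Q`, is a Poisson process
on `E × ℕ` with intensity measure `volume ⊗ μ`.  That is, the number of pairs in a Borel set `A` is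
a random variable, it has the Poisson law of mean `(volume ⊗ μ) A` when this is finite, and the
numbers of pairs in pairwise disjoint Borel sets are independent. -/
structure IsMarkedPoisson {E Ω : Type} [MeasureSpace E] [MeasurableSpace Ω] (P : Measure Ω)
    (μ : Measure ℕ) (Q : Ω → Set E) (D : Ω → E → ℕ) : Prop where
  measurable_count : ∀ A : Set (E × ℕ), MeasurableSet A →
    Measurable (fun ω => count (Q ω) (D ω) A)
  law_count : ∀ A : Set (E × ℕ), MeasurableSet A → (volume.prod μ) A ≠ ⊤ → ∀ k : ℕ,
    P {ω | count (Q ω) (D ω) A = (k : ℕ∞)} = ENNReal.ofReal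
      (Real.exp (-((volume.prod μ) A).toReal) * ((volume.prod μ) A).toReal ^ k /
        (k.factorial : ℝ))
  indep_count : ∀ (m : ℕ) (A : Fin m → Set (E × ℕ)), (∀ i, MeasurableSet (A i)) →
    Pairwise (fun i j => Disjoint (A i) (A j)) →
    ProbabilityTheory.iIndepFun (fun i ω => count (Q ω) (D ω) (A i)) P

end Pool.Agent.N956.MM
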