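import Pool.Agent.N956.MM.Defs

/-!
# Stable multi-matchings: deterministic part
-/

set_option autoImplicit false

namespace Pool.Agent.N956.MM

open Metric Set Filter

variable {E : Type} [MetricSpace E]

/-- a point with at least as many stubs as there are points in the ball is willing -/
theorem willing_of_giant {Q : Set E} {D : E → ℕ} {G : SimpleGraph E}
    (h : IsStableMultiMatching Q D G) {x y : E} (hx : x ∈ Q)
    (hna : ¬ G.Adj x y) (g : (Q ∩ closedBall x (dist x y)).encard ≤ D x) :
    Willing D G x y := by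
  by_contra hw
  unfold Willing at hw
  push Not at hw
  obtain ⟨h1, h2⟩ := hw
  have hsub : insert x (G.neighborSet x) ⊆ Q ∩ closedBall x (dist x y) := by
    intro z hz
    rcases Set.mem_insert_iff.1 hz with rfl | hz
    · exact ⟨hx, mem_closedBall_self dist_nonneg⟩
    · refine ⟨h.mem z x (G.adj_symm hz), ?_⟩
      rw [mem_closedBall, dist_comm]
      exact h2 z hz
  have hnot : x ∉ G.neighborSet x := by
    intro hm
    exact G.loopless.irrefl x hm
  have h3 := Set.encard_le_encard hsub
  rw [Set.encard_insert_of_notMem hnot] at h3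
  have h4 : (D x : ℕ∞) + 1 ≤ D x := le_trans (by gcongr) (h3.trans g)
  have h5 : D x + 1 ≤ D x := by exact_mod_cast h4
  omega

/-- two giants are linked -/
theorem adj_of_giants {Q : Set E} {D : E → ℕ} {G : SimpleGraph E}
    (h : IsStableMultiMatching Q D G) {x y : E} (hx : x ∈ Q) (hy : y ∈ Q) (hne : x ≠ y)
    (gx : (Q ∩ closedBall x (dist x y)).encard ≤ D x)
    (gy : (Q ∩ closedBall y (dist x y)).encard ≤ D y) : G.Adj x y := by
  by_contra hna
  refine h.stable x hx y hy hne hna ⟨willing_of_giant h hx hna gx, ?_⟩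
  refine willing_of_giant h hy (fun h' => hna (G.adj_symm h')) ?_
  rwa [dist_comm y x]

/-- The configuration has giants at all large scales, seen from the point `o`. -/
structure Giants (Q : Set E) (D : E → ℕ) (o : E) (r : ℕ → ℝ) (T : ℕ → ℕ) : Prop where
  mono_r : Monotone r
  mono_T : Monotone T
  r_top : Tendsto r atTop atTop
  T_top : Tendsto T atTop atTop
  giant : ∀ᶠ k in atTop, ∃ x ∈ Q ∩ closedBall o (r k), T k ≤ D x
  few : ∀ᶠ k in atTop, (Q ∩ closedBall o (3 * r (k + 1))).encard ≤ T k

theorem Giants.locFin {Q : Set E} {D : E → ℕ} {o : E} {r : ℕ → ℝ} {T : ℕ → ℕ}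
    (g : Giants Q D o r T) (x : E) (ρ : ℝ) : (Q ∩ closedBall x ρ).Finite := by
  have h1 := g.r_top.eventually_ge_atTop (dist x o + ρ)
  have h2 := g.r_top.eventually_ge_atTop 0
  have h3 : ∀ᶠ k in atTop, dist x o + ρ ≤ r (k + 1) := by
    filter_upwards [h1] with k hk
    exact hk.trans (g.mono_r (Nat.le_succ k))
  have h4 : ∀ᶠ k in atTop, 0 ≤ r (k + 1) := by
    filter_upwards [h2] with k hk
    exact hk.trans (g.mono_r (Nat.le_succ k))
  obtain ⟨k, hk, hk1, hk2⟩ := (g.few.and (h3.and h4)).exists
  have h5 : (Q ∩ closedBall o (3 * r (k + 1))).Finite := by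
    rw [← Set.encard_lt_top_iff]
    exact lt_of_le_of_lt hk (WithTop.coe_lt_top _)
  refine h5.subset (Set.inter_subset_inter_right _ ?_)
  intro z hz
  rw [mem_closedBall] at hz ⊢
  have := dist_triangle z x o
  linarith

theorem Giants.chain {Q : Set E} {D : E → ℕ} {o : E} {r : ℕ → ℝ} {T : ℕ → ℕ}
    (g : Giants Q D o r T) {G : SimpleGraph E} (h : IsStableMultiMatching Q D G) :
    ∃ (K : ℕ) (x : ℕ → E), (∀ k, K ≤ k → x k ∈ Q ∧ x k ∈ closedBall o (r k) ∧ T k ≤ D (x k)) ∧
      (∀ k, K ≤ k → x k = x (k + 1) ∨ G.Adj (x k) (x (k + 1))) := by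
  obtain ⟨K, hK⟩ := eventually_atTop.1 (g.giant.and (g.few.and (g.r_top.eventually_ge_atTop 0)))
  have hex : ∀ k, ∃ x : E, K ≤ k → x ∈ Q ∧ x ∈ closedBall o (r k) ∧ T k ≤ D x := by
    intro k
    by_cases hk : K ≤ k
    · obtain ⟨⟨x, hx, hT⟩, -⟩ := hK k hk
      exact ⟨x, fun _ => ⟨hx.1, hx.2, hT⟩⟩
    · exact ⟨o, fun h' => absurd h' hk⟩
  choose x hx using hex
  refine ⟨K, x, fun k hk => hx k hk, ?_⟩
  intro k hk
  by_cases hne : x k = x (k + 1)
  · exact Or.inl hne
  · right
    obtain ⟨h1, h2, h3⟩ := hx k hk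
    obtain ⟨h4, h5, h6⟩ := hx (k + 1) (by omega)
    obtain ⟨-, hfew, hr0⟩ := hK k hk
    have hr1 : r k ≤ r (k + 1) := g.mono_r (Nat.le_succ k)
    rw [mem_closedBall] at h2 h5
    have hd : dist (x k) (x (k + 1)) ≤ r k + r (k + 1) := by
      have := dist_triangle_right (x k) (x (k + 1)) o
      linarith
    refine adj_of_giants h h1 h4 hne ?_ ?_
    · refine le_trans (Set.encard_le_encard (Set.inter_subset_inter_right _ ?_))
        (hfew.trans (by exact_mod_cast h3))
      intro z hz
      rw [mem_closedBall] at hz ⊢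
      have := dist_triangle z (x k) o
      linarith
    · refine le_trans (Set.encard_le_encard (Set.inter_subset_inter_right _ ?_))
        (hfew.trans (by exact_mod_cast (g.mono_T (Nat.le_succ k)).trans h6))
      intro z hz
      rw [mem_closedBall] at hz ⊢
      have := dist_triangle z (x (k + 1)) o
      linarith

/-- giants at all scales: there is an infinite component -/
theorem Giants.infinite {Q : Set E} {D : E → ℕ} {o : E} {r : ℕ → ℝ} {T : ℕ → ℕ}
    (g : Giants Q D o r T) {G : SimpleGraph E} (h : IsStableMultiMatching Q D G) :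
    HasInfiniteComponent G := by
  obtain ⟨K, x, hx, hadj⟩ := g.chain h
  refine ⟨x K, ?_⟩
  have hreach : ∀ j, G.Reachable (x K) (x (K + j)) := by
    intro j
    induction j with
    | zero => exact SimpleGraph.Reachable.refl _
    | succ j ih =>
      refine ih.trans ?_
      rcases hadj (K + j) (by omega) with h1 | h1
      · rw [show K + (j + 1) = K + j + 1 by ring, ← h1]
      · exact h1.reachable
  intro hfin
  have hb : BddAbove (D '' {y | G.Reachable (x K) y}) := (hfin.image D).bddAbove
  obtain ⟨B, hB⟩ := hb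
  obtain ⟨k, hk1, hk2⟩ := ((g.T_top.eventually_gt_atTop B).and (eventually_ge_atTop K)).exists
  have h1 := hB ⟨x k, by
    have := hreach (k - K)
    rwa [show K + (k - K) = k by omega] at this, rfl⟩
  have h2 := (hx k hk2).2.2
  omega

/-- giants at all scales: all stubs are used -/
theorem Giants.saturated {Q : Set E} {D : E → ℕ} {o : E} {r : ℕ → ℝ} {T : ℕ → ℕ}
    (g : Giants Q D o r T) {G : SimpleGraph E} (h : IsStableMultiMatching Q D G) (z : E)
    (hz : z ∈ Q) : (G.neighborSet z).encard = D z := by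
  refine le_antisymm (h.deg z hz) ?_
  by_contra hlt
  push Not at hlt
  obtain ⟨K, x, hx, -⟩ := g.chain h
  -- all late giants are neighbours of `z`
  have hev : ∀ᶠ k in atTop, x k ≠ z → G.Adj z (x k) := by
    filter_upwards [g.few, eventually_ge_atTop K, g.r_top.eventually_ge_atTop (dist z o)]
      with k hfew hk hr hne
    obtain ⟨h1, h2, h3⟩ := hx k hk
    rw [mem_closedBall] at h2
    by_contra hna
    refine h.stable z hz (x k) h1 (Ne.symm hne) hna ⟨Or.inl hlt, ?_⟩
    refine willing_of_giant h h1 (fun h' => hna (G.adj_symm h')) ?_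
    refine le_trans (Set.encard_le_encard (Set.inter_subset_inter_right _ ?_))
        (hfew.trans (by exact_mod_cast h3))
    intro w hw
    rw [mem_closedBall] at hw ⊢
    have hr1 : r k ≤ r (k + 1) := g.mono_r (Nat.le_succ k)
    have e1 := dist_triangle w (x k) o
    have e2 := dist_triangle (x k) o z
    rw [dist_comm o z] at e2
    linarith
  -- so the neighbour set is infinite
  have hfin : (G.neighborSet z).Finite := by
    rw [← Set.encard_lt_top_iff]
    exact lt_of_le_of_lt (h.deg z hz) (WithTop.coe_lt_top _)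
  have hb : BddAbove (D '' (insert z (G.neighborSet z))) := ((hfin.insert z).image D).bddAbove
  obtain ⟨B, hB⟩ := hb
  obtain ⟨k, hk1, hk2, hk3⟩ :=
    (hev.and ((g.T_top.eventually_gt_atTop B).and (eventually_ge_atTop K))).exists
  have h1 : x k ∈ insert z (G.neighborSet z) := by
    by_cases hne : x k = z
    · rw [hne]; exact Set.mem_insert _ _
    · exact Set.mem_insert_of_mem _ (hk1 hne)
  have h2 := hB ⟨x k, h1, rfl⟩
  have h3 := (hx k hk3).2.2
  omega

end Pool.Agent.N956.MM
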