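import Pool.Agent.N956.MM.Defs

/-!
# Existence of stable multi-matchings of locally finite sets
-/

set_option autoImplicit false

namespace Pool.Agent.N956.MM

open Metric Set Filter

variable {E : Type} [MetricSpace E]

/-- length of an unordered pair -/
noncomputable def len (e : Sym2 E) : ℝ := Sym2.lift ⟨fun a b => dist a b, fun a b => dist_comm a b⟩ e

theorem len_mk (a b : E) : len s(a, b) = dist a b := rfl

theorem fin_exists (D : E → ℕ) (S : Finset (Sym2 E)) : ∃ G : SimpleGraph E,
    (∀ x y, G.Adj x y → s(x, y) ∈ S) ∧ (∀ x, (G.neighborSet x).encard ≤ D x) ∧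
    ∀ x y, s(x, y) ∈ S → x ≠ y → ¬ G.Adj x y → ¬ (Willing D G x y ∧ Willing D G y x) := by
  classical
  induction' hn : S.card with n ih generalizing S
  · rw [Finset.card_eq_zero] at hn
    subst hn
    refine ⟨⊥, fun x y h => by simp at h, fun x => ?_, fun x y h => by simp at h⟩
    have : (⊥ : SimpleGraph E).neighborSet x = ∅ := by
      ext z; simp
    rw [this]; simp
  · have hne : S.Nonempty := by
      rw [← Finset.card_pos]; omega
    obtain ⟨e, heS, hmax⟩ := S.exists_max_image len hne
    obtain ⟨G', h1, h2, h3⟩ := ih (S.erase e) (by rw [Finset.card_erase_of_mem heS]; omega)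
    induction' e using Sym2.ind with a b
    by_cases hab : a = b
    · subst hab
      refine ⟨G', fun x y h => Finset.mem_of_mem_erase (h1 x y h), h2, fun x y hxy hne hna => ?_⟩
      refine h3 x y (Finset.mem_erase.2 ⟨?_, hxy⟩) hne hna
      intro heq
      rw [Sym2.eq_iff] at heq
      rcases heq with ⟨e1, e2⟩ | ⟨e1, e2⟩
      · exact hne (e1.trans e2.symm)
      · exact hne (e1.trans e2.symm)
    by_cases hfree : (G'.neighborSet a).encard < D a ∧ (G'.neighborSet b).encard < D b
    · -- add the edge
      obtain ⟨ha, hb⟩ := hfree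
      have hadj : ∀ x y, (G' ⊔ SimpleGraph.edge a b).Adj x y ↔ G'.Adj x y ∨ s(x, y) = s(a, b) := by
        intro x y
        rw [SimpleGraph.sup_adj, SimpleGraph.edge_adj]
        constructor
        · rintro (h | ⟨h, -⟩)
          · exact Or.inl h
          · right
            rw [Sym2.eq_iff]
            exact h
        · rintro (h | h)
          · exact Or.inl h
          · right
            rw [Sym2.eq_iff] at h
            refine ⟨h, ?_⟩
            rcases h with ⟨rfl, rfl⟩ | ⟨rfl, rfl⟩
            · exact hab
            · exact fun h' => hab h'.symm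
      have hnb : ∀ x, x ≠ a → x ≠ b →
          (G' ⊔ SimpleGraph.edge a b).neighborSet x = G'.neighborSet x := by
        intro x hxa hxb
        ext z
        rw [SimpleGraph.mem_neighborSet, SimpleGraph.mem_neighborSet, hadj]
        constructor
        · rintro (h | h)
          · exact h
          · rw [Sym2.eq_iff] at h
            rcases h with ⟨rfl, -⟩ | ⟨rfl, -⟩
            · exact absurd rfl hxa
            · exact absurd rfl hxb
        · exact Or.inl
      refine ⟨G' ⊔ SimpleGraph.edge a b, ?_, ?_, ?_⟩
      · intro x y h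
        rcases (hadj x y).1 h with h | h
        · exact Finset.mem_of_mem_erase (h1 x y h)
        · rw [h]; exact heS
      · intro x
        by_cases hxa : x = a
        · subst hxa
          have : (G' ⊔ SimpleGraph.edge x b).neighborSet x ⊆ insert b (G'.neighborSet x) := by
            intro z hz
            rcases (hadj x z).1 hz with h | h
            · exact Set.mem_insert_of_mem _ h
            · rw [Sym2.eq_iff] at h
              rcases h with ⟨-, rfl⟩ | ⟨e1, e2⟩
              · exact Set.mem_insert _ _
              · exact absurd e1 hab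
          refine (Set.encard_le_encard this).trans ((Set.encard_insert_le _ _).trans ?_)
          exact Order.add_one_le_of_lt ha
        by_cases hxb : x = b
        · subst hxb
          have : (G' ⊔ SimpleGraph.edge a x).neighborSet x ⊆ insert a (G'.neighborSet x) := by
            intro z hz
            rcases (hadj x z).1 hz with h | h
            · exact Set.mem_insert_of_mem _ h
            · rw [Sym2.eq_iff] at h
              rcases h with ⟨e1, e2⟩ | ⟨-, rfl⟩
              · exact absurd e1.symm hab
              · exact Set.mem_insert _ _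
          refine (Set.encard_le_encard this).trans ((Set.encard_insert_le _ _).trans ?_)
          exact Order.add_one_le_of_lt hb
        · rw [hnb x hxa hxb]
          exact h2 x
      · intro x y hxy hne hna
        have hna' : ¬ G'.Adj x y := fun h => hna ((hadj x y).2 (Or.inl h))
        have hne' : s(x, y) ≠ s(a, b) := fun h => hna ((hadj x y).2 (Or.inr h))
        have hw : ∀ u v, Willing D (G' ⊔ SimpleGraph.edge a b) u v → Willing D G' u v := by
          intro u v hu
          by_cases hua : u = a
          · subst hua
            exact Or.inl ha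
          by_cases hub : u = b
          · subst hub
            exact Or.inl hb
          unfold Willing at hu ⊢
          rw [hnb u hua hub] at hu
          rcases hu with hu | ⟨z, hz, hz2⟩
          · exact Or.inl hu
          · refine Or.inr ⟨z, ?_, hz2⟩
            have : z ∈ (G' ⊔ SimpleGraph.edge a b).neighborSet u := hz
            rwa [hnb u hua hub] at this
        intro ⟨w1, w2⟩
        exact h3 x y (Finset.mem_erase.2 ⟨hne', hxy⟩) hne hna' ⟨hw _ _ w1, hw _ _ w2⟩
    · -- the longest pair is not added
      have key : ∀ u v, s(u, v) = s(a, b) → ¬ (G'.neighborSet u).encard < D u →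
          ¬ Willing D G' u v := by
        intro u v huv hu hw
        rcases hw with hw | ⟨z, hz, hz2⟩
        · exact hu hw
        · have h4 := hmax _ (Finset.mem_of_mem_erase (h1 u z hz))
          rw [← huv, len_mk, len_mk] at h4
          linarith
      refine ⟨G', fun x y h => Finset.mem_of_mem_erase (h1 x y h), h2, fun x y hxy hne hna => ?_⟩
      by_cases heq : s(x, y) = s(a, b)
      · rintro ⟨w1, w2⟩
        apply hfree
        have hx : (G'.neighborSet x).encard < D x := by
          by_contra hx
          exact key x y heq hx w1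
        have hy : (G'.neighborSet y).encard < D y := by
          by_contra hy
          exact key y x (by rw [Sym2.eq_swap, heq]) hy w2
        rw [Sym2.eq_iff] at heq
        rcases heq with ⟨rfl, rfl⟩ | ⟨rfl, rfl⟩
        · exact ⟨hx, hy⟩
        · exact ⟨hy, hx⟩
      · exact h3 x y (Finset.mem_erase.2 ⟨heq, hxy⟩) hne hna

/-- every countable set with finitely many points in every ball has a stable multi-matching -/
theorem exists_stable (Q : Set E) (D : E → ℕ) (hc : Q.Countable)
    (hf : ∀ x ρ, (Q ∩ closedBall x ρ).Finite) :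
    ∃ G : SimpleGraph E, IsStableMultiMatching Q D G := by
  classical
  -- exhaustion by finite sets
  obtain ⟨F, hFmono, hFU⟩ : ∃ F : ℕ → Finset E, Monotone F ∧ ∀ x, x ∈ Q ↔ ∃ n, x ∈ F n := by
    rcases Q.eq_empty_or_nonempty with rfl | hne
    · exact ⟨fun _ => ∅, fun _ _ _ => le_rfl, fun x => by simp⟩
    · obtain ⟨f, hf⟩ := hc.exists_eq_range hne
      refine ⟨fun n => (Finset.range n).image f, ?_, ?_⟩
      · intro m n hmn
        exact Finset.image_subset_image (Finset.range_mono hmn)
      · intro x
        rw [hf]
        constructor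
        · rintro ⟨k, rfl⟩
          exact ⟨k + 1, Finset.mem_image.2 ⟨k, Finset.mem_range.2 (Nat.lt_succ_self k), rfl⟩⟩
        · rintro ⟨n, hn⟩
          obtain ⟨k, -, rfl⟩ := Finset.mem_image.1 hn
          exact ⟨k, rfl⟩
  choose H h1 h2 h3 using fun n => fin_exists D (F n).sym2
  let U : Ultrafilter ℕ := Filter.hyperfilter ℕ
  have hU : (U : Filter ℕ) ≤ atTop := Nat.hyperfilter_le_atTop
  have hin : ∀ x ∈ Q, ∀ᶠ n in (U : Filter ℕ), x ∈ F n := by
    intro x hx
    obtain ⟨n, hn⟩ := (hFU x).1 hx
    exact hU (eventually_atTop.2 ⟨n, fun m hm => hFmono hm hn⟩)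
  have hHQ : ∀ n x y, (H n).Adj x y → x ∈ Q := by
    intro n x y h
    have := h1 n x y h
    rw [Finset.mk_mem_sym2_iff] at this
    exact (hFU x).2 ⟨n, this.1⟩
  let G : SimpleGraph E :=
    { Adj := fun x y => ∀ᶠ n in (U : Filter ℕ), (H n).Adj x y
      symm := ⟨fun x y h => h.mono fun n hn => (H n).adj_symm hn⟩
      loopless := ⟨fun x h => by
        obtain ⟨n, hn⟩ := h.exists
        exact (H n).loopless.irrefl x hn⟩ }
  have hG : ∀ x y, G.Adj x y ↔ ∀ᶠ n in (U : Filter ℕ), (H n).Adj x y := fun x y => Iff.rfl
  have hGn : ∀ x y, ¬ G.Adj x y → ∀ᶠ n in (U : Filter ℕ), ¬ (H n).Adj x y := by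
    intro x y h
    rw [hG] at h
    exact Ultrafilter.eventually_not.2 h
  have hdeg : ∀ x, (G.neighborSet x).encard ≤ D x := by
    intro x
    by_contra hlt
    push Not at hlt
    have hle : ((D x + 1 : ℕ) : ℕ∞) ≤ (G.neighborSet x).encard := by
      push_cast
      exact Order.add_one_le_of_lt hlt
    obtain ⟨t, ht, htc⟩ := Set.exists_subset_encard_eq hle
    have htf : t.Finite := by
      rw [← Set.encard_lt_top_iff, htc]
      exact WithTop.coe_lt_top _
    have hev : ∀ᶠ n in (U : Filter ℕ), ∀ z ∈ t, (H n).Adj x z :=
      (htf.eventually_all).2 fun z hz => ht hz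
    obtain ⟨n, hn⟩ := hev.exists
    have h4 : t ⊆ (H n).neighborSet x := hn
    have h5 := (Set.encard_le_encard h4).trans (h2 n x)
    rw [htc] at h5
    have h6 : D x + 1 ≤ D x := by exact_mod_cast h5
    omega
  have hwill : ∀ x ∈ Q, ∀ y, Willing D G x y → ∀ᶠ n in (U : Filter ℕ), Willing D (H n) x y := by
    intro x hx y hw
    rcases hw with hw | ⟨z, hz, hz2⟩
    · by_contra hcon
      have hcon' := Ultrafilter.eventually_not.2 hcon
      have hB := hf x (dist x y)
      have hev : ∀ᶠ n in (U : Filter ℕ), ∀ z ∈ Q ∩ closedBall x (dist x y),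
          ((H n).Adj x z → G.Adj x z) := by
        refine (hB.eventually_all).2 fun z _ => ?_
        by_cases hz : G.Adj x z
        · exact Eventually.of_forall fun n _ => hz
        · filter_upwards [hGn x z hz] with n hn hn'
          exact absurd hn' hn
      obtain ⟨n, hn1, hn2⟩ := (hcon'.and hev).exists
      unfold Willing at hn1
      push Not at hn1
      obtain ⟨hn3, hn4⟩ := hn1
      have h4 : (H n).neighborSet x ⊆ G.neighborSet x := by
        intro z hz
        refine hn2 z ⟨hHQ n z x ((H n).adj_symm hz), ?_⟩ hz
        rw [mem_closedBall, dist_comm]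
        exact hn4 z hz
      exact absurd (hn3.trans (Set.encard_le_encard h4)) (not_le.2 hw)
    · filter_upwards [(hG x z).1 hz] with n hn
      exact Or.inr ⟨z, hn, hz2⟩
  refine ⟨G, ?_, fun x _ => hdeg x, ?_⟩
  · intro x y h
    obtain ⟨n, hn⟩ := ((hG x y).1 h).exists
    exact hHQ n x y hn
  · rintro x hx y hy hne hna ⟨w1, w2⟩
    obtain ⟨n, hn1, hn2, hn3, hn4, hn5⟩ := ((hGn x y hna).and ((hin x hx).and ((hin y hy).and
      ((hwill x hx y w1).and (hwill y hy x w2))))).exists
    exact h3 n x y (by rw [Finset.mk_mem_sym2_iff]; exact ⟨hn2, hn3⟩) hne hn1 ⟨hn4, hn5⟩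

end Pool.Agent.N956.MM
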