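import Pool.Agent.N956.MM.Prob

/-!
# A heavy-tailed law on the odd integers; mixtures
-/

set_option autoImplicit false

namespace Pool.Agent.N956.MM

open Metric Set Filter MeasureTheory Topology

/-- the random degree `2 ⌊u⁻²⌋ + 1` -/
noncomputable def deg (u : ℝ) : ℕ := 2 * ⌊(u ^ 2)⁻¹⌋₊ + 1

theorem measurable_deg : Measurable deg := by
  unfold deg
  exact ((measurable_from_top (f := fun n : ℕ => 2 * n + 1)).comp
    (Nat.measurable_floor.comp (measurable_id.pow_const 2).inv))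

/-- law of `2 ⌊U⁻²⌋ + 1`, with `U` uniform in `(0,1]` -/
noncomputable def nu : Measure ℕ := (volume.restrict (Ioc (0 : ℝ) 1)).map deg

instance : IsProbabilityMeasure (volume.restrict (Ioc (0 : ℝ) 1)) :=
  ⟨by rw [Measure.restrict_apply_univ, Real.volume_Ioc]; simp⟩

instance : IsProbabilityMeasure nu := Measure.isProbabilityMeasure_map measurable_deg.aemeasurable

theorem deg_ge {u : ℝ} (hu : u ∈ Ioc (0 : ℝ) 1) : 3 ≤ deg u := by
  have h1 : (1 : ℝ) ≤ (u ^ 2)⁻¹ := by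
    rw [one_le_inv₀ (by have := hu.1; positivity)]
    have h2 := hu.1
    have h3 := hu.2
    nlinarith
  have h2 : 1 ≤ ⌊(u ^ 2)⁻¹⌋₊ := Nat.one_le_floor_iff _ |>.2 h1
  unfold deg
  omega

theorem nu_odd : nu {n | Odd n ∧ 3 ≤ n} = 1 := by
  unfold nu
  rw [Measure.map_apply measurable_deg MeasurableSet.of_discrete]
  have h : (deg ⁻¹' {n | Odd n ∧ 3 ≤ n}) ∩ Ioc (0 : ℝ) 1 = Ioc (0 : ℝ) 1 := by
    ext u
    refine ⟨fun h => h.2, fun h => ⟨⟨?_, deg_ge h⟩, h⟩⟩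
    exact ⟨⌊(u ^ 2)⁻¹⌋₊, rfl⟩
  rw [Measure.restrict_apply (measurable_deg MeasurableSet.of_discrete), h, Real.volume_Ioc]
  simp

theorem nu_heavy : Heavy nu := by
  refine ⟨1, 1 / 2, one_pos, by norm_num, fun n hn => ?_⟩
  have hn' : (0 : ℝ) < n := by exact_mod_cast hn
  have hn1 : (1 : ℝ) ≤ n := by exact_mod_cast hn
  have hx0 : 0 < (n : ℝ) ^ (-(1 / 2) : ℝ) := by positivity
  have hx1 : (n : ℝ) ^ (-(1 / 2) : ℝ) ≤ 1 := Real.rpow_le_one_of_one_le_of_nonpos hn1 (by norm_num)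
  rw [one_mul, Measure.real, ← ENNReal.ofReal_le_iff_le_toReal (measure_ne_top _ _)]
  unfold nu
  rw [Measure.map_apply measurable_deg MeasurableSet.of_discrete,
    Measure.restrict_apply (measurable_deg MeasurableSet.of_discrete)]
  have hsub : Ioc (0 : ℝ) ((n : ℝ) ^ (-(1 / 2) : ℝ)) ⊆ deg ⁻¹' Ici n ∩ Ioc (0 : ℝ) 1 := by
    intro u hu
    refine ⟨?_, hu.1, hu.2.trans hx1⟩
    have h1 : u ^ 2 ≤ (n : ℝ)⁻¹ := by
      calc u ^ 2 ≤ ((n : ℝ) ^ (-(1 / 2) : ℝ)) ^ 2 := pow_le_pow_left₀ hu.1.le hu.2 2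
        _ = (n : ℝ)⁻¹ := by
          rw [← Real.rpow_natCast, ← Real.rpow_mul hn'.le, ← Real.rpow_neg_one]
          norm_num
    have h2 : (n : ℝ) ≤ (u ^ 2)⁻¹ := by
      rw [le_inv_comm₀ hn' (by have := hu.1; positivity)]
      exact h1
    have h3 : n ≤ ⌊(u ^ 2)⁻¹⌋₊ := Nat.le_floor h2
    show n ≤ deg u
    unfold deg
    omega
  refine le_trans ?_ (measure_mono hsub)
  rw [Real.volume_Ioc, sub_zero]

/-- mixture `p μ₀ + (1 - p) ν` -/
theorem heavy_mix {ν μ₀ : Measure ℕ} [IsProbabilityMeasure ν] [IsProbabilityMeasure μ₀]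
    (hν : Heavy ν) {p : ℝ} (hp1 : p < 1) :
    Heavy (ENNReal.ofReal p • μ₀ + ENNReal.ofReal (1 - p) • ν) := by
  obtain ⟨c, a, hc, ha, h⟩ := hν
  refine ⟨(1 - p) * c, a, mul_pos (by linarith) hc, ha, fun n hn => ?_⟩
  have h1 := h n hn
  have h2 : (1 - p) * ν.real (Ici n) ≤
      (ENNReal.ofReal p • μ₀ + ENNReal.ofReal (1 - p) • ν).real (Ici n) := by
    unfold Measure.real
    rw [Measure.add_apply, Measure.smul_apply, Measure.smul_apply, smul_eq_mul, smul_eq_mul,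
      ENNReal.toReal_add (ENNReal.mul_ne_top ENNReal.ofReal_ne_top (measure_ne_top _ _))
        (ENNReal.mul_ne_top ENNReal.ofReal_ne_top (measure_ne_top _ _)),
      ENNReal.toReal_mul, ENNReal.toReal_mul, ENNReal.toReal_ofReal (by linarith : 0 ≤ 1 - p)]
    have : 0 ≤ (ENNReal.ofReal p).toReal * (μ₀ (Ici n)).toReal := by positivity
    linarith
  calc (1 - p) * c * (n : ℝ) ^ (-a) = (1 - p) * (c * (n : ℝ) ^ (-a)) := by ring
    _ ≤ (1 - p) * ν.real (Ici n) := mul_le_mul_of_nonneg_left h1 (by linarith)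
    _ ≤ _ := h2

theorem prob_mix {ν μ₀ : Measure ℕ} [IsProbabilityMeasure ν] [IsProbabilityMeasure μ₀]
    {p : ℝ} (hp0 : 0 ≤ p) (hp1 : p ≤ 1) :
    IsProbabilityMeasure (ENNReal.ofReal p • μ₀ + ENNReal.ofReal (1 - p) • ν) := by
  constructor
  rw [Measure.add_apply, Measure.smul_apply, Measure.smul_apply, measure_univ, measure_univ,
    smul_eq_mul, smul_eq_mul, mul_one, mul_one, ← ENNReal.ofReal_add hp0 (by linarith)]
  simp

/-- balls in Euclidean space -/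
theorem vol_ball (d : ℕ) : ∃ v : ℝ, 0 < v ∧ ∀ r : ℝ, 0 ≤ r →
    volume (closedBall (0 : EuclideanSpace ℝ (Fin d)) r) = ENNReal.ofReal (v * r ^ d) := by
  refine ⟨(volume (ball (0 : EuclideanSpace ℝ (Fin d)) 1)).toReal,
    ENNReal.toReal_pos (measure_ball_pos _ _ one_pos).ne' measure_ball_lt_top.ne, fun r hr => ?_⟩
  rw [Measure.addHaar_closedBall _ _ hr, ENNReal.ofReal_mul ENNReal.toReal_nonneg,
    ENNReal.ofReal_toReal measure_ball_lt_top.ne, mul_comm]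
  simp

end Pool.Agent.N956.MM
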