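import Pool.Agent.N956.MM.Det
import Pool.Agent.N956.MM.Exist

/-!
# Stable multi-matchings with heavy-tailed degrees: probabilistic part
-/

set_option autoImplicit false

namespace Pool.Agent.N956.MM

open Metric Set Filter MeasureTheory Topology

/-- polynomial tail with exponent less than one -/
def Heavy (μ : Measure ℕ) : Prop :=
  ∃ c a : ℝ, 0 < c ∧ a < 1 ∧ ∀ n : ℕ, 1 ≤ n → c * (n : ℝ) ^ (-a) ≤ μ.real (Set.Ici n)

/-! ### the Poisson law -/

theorem poisson_sum (m : ℝ) :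
    HasSum (fun k : ℕ => Real.exp (-m) * m ^ k / (k.factorial : ℝ)) 1 := by
  have h := NormedSpace.expSeries_div_hasSum_exp (𝔸 := ℝ) m
  rw [← Real.exp_eq_exp_ℝ] at h
  have h2 := h.mul_left (Real.exp (-m))
  rw [← Real.exp_add, neg_add_cancel, Real.exp_zero] at h2
  have e : (fun k : ℕ => Real.exp (-m) * m ^ k / (k.factorial : ℝ)) =
      fun k : ℕ => Real.exp (-m) * (m ^ k / (k.factorial : ℝ)) := by
    funext k
    ring
  rw [e]
  exact h2

theorem head_aux {f : ℕ → ℝ} (hf : HasSum f 1) (h0 : ∀ k, 0 ≤ f k) {q : ℝ} (hq : 0 ≤ q) (T : ℕ)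
    (hstep : ∀ i, f (i + (T + 1)) ≤ q * f (i + T)) : 1 - q ≤ ∑ k ∈ Finset.range (T + 1), f k := by
  have hs := hf.summable
  have h1 := hs.sum_add_tsum_nat_add (T + 1)
  rw [hf.tsum_eq] at h1
  have hs' : Summable fun i : ℕ => f (i + (T + 1)) := (summable_nat_add_iff (T + 1)).2 hs
  have hs2 : Summable fun i : ℕ => f (i + T) := (summable_nat_add_iff T).2 hs
  have h2 : ∑' i : ℕ, f (i + (T + 1)) ≤ ∑' i : ℕ, q * f (i + T) :=
    hs'.tsum_le_tsum hstep (hs2.mul_left _)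
  have h3 : ∑' i : ℕ, q * f (i + T) ≤ q := by
    rw [tsum_mul_left]
    have h4 : ∑' i : ℕ, f (i + T) ≤ 1 := by
      have h5 := hs.sum_add_tsum_nat_add T
      rw [hf.tsum_eq] at h5
      have h6 : 0 ≤ ∑ k ∈ Finset.range T, f k := Finset.sum_nonneg fun k _ => h0 k
      linarith
    calc q * _ ≤ q * 1 := by gcongr
      _ = _ := mul_one _
  linarith

theorem poisson_head (m : ℝ) (hm : 0 ≤ m) (T : ℕ) : 1 - m / (T + 1) ≤
    ∑ k ∈ Finset.range (T + 1), Real.exp (-m) * m ^ k / (k.factorial : ℝ) := by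
  refine head_aux (poisson_sum m) (fun k => by positivity) (by positivity) T fun i => ?_
  have e : Real.exp (-m) * m ^ (i + (T + 1)) / ((i + (T + 1)).factorial : ℝ) =
      m / ((i : ℝ) + T + 1) * (Real.exp (-m) * m ^ (i + T) / ((i + T).factorial : ℝ)) := by
    rw [show i + (T + 1) = (i + T) + 1 by ring, Nat.factorial_succ, pow_succ]
    push_cast
    have h1 : ((i + T).factorial : ℝ) ≠ 0 := by positivity
    have h2 : (i : ℝ) + T + 1 ≠ 0 := by positivity
    field_simp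
  rw [e]
  have h3 : (0 : ℝ) ≤ i := Nat.cast_nonneg i
  have h4 : m / ((i : ℝ) + T + 1) ≤ m / (T + 1) :=
    div_le_div_of_nonneg_left hm (by positivity) (by linarith)
  exact mul_le_mul_of_nonneg_right h4 (by positivity)

theorem poisson_tail {Ω : Type} [MeasurableSpace Ω] {P : Measure Ω} [IsProbabilityMeasure P]
    {N : Ω → ℕ∞} (hN : Measurable N) {m : ℝ} (hm : 0 ≤ m)
    (hlaw : ∀ k : ℕ, P {ω | N ω = (k : ℕ∞)} =
      ENNReal.ofReal (Real.exp (-m) * m ^ k / (k.factorial : ℝ))) (T : ℕ) :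
    P {ω | ¬ N ω ≤ (T : ℕ∞)} ≤ ENNReal.ofReal (m / (T + 1)) := by
  have hms : ∀ k : ℕ, MeasurableSet {ω | N ω = (k : ℕ∞)} := fun k =>
    hN (measurableSet_singleton _)
  have h1 : {ω | N ω ≤ (T : ℕ∞)} = ⋃ k ∈ Finset.range (T + 1), {ω | N ω = (k : ℕ∞)} := by
    ext ω
    simp only [Set.mem_ofPred_eq, Set.mem_iUnion, Finset.mem_range, exists_prop]
    constructor
    · intro h
      have hne : N ω ≠ ⊤ := ne_top_of_le_ne_top (WithTop.coe_ne_top) h
      lift N ω to ℕ using hne with k hk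
      refine ⟨k, ?_, rfl⟩
      have : k ≤ T := by exact_mod_cast h
      omega
    · rintro ⟨k, hk, h⟩
      rw [h]
      exact_mod_cast Nat.le_of_lt_succ hk
  have h2 : P {ω | N ω ≤ (T : ℕ∞)} = ENNReal.ofReal
      (∑ k ∈ Finset.range (T + 1), Real.exp (-m) * m ^ k / (k.factorial : ℝ)) := by
    rw [h1, measure_biUnion_finset]
    · rw [ENNReal.ofReal_sum_of_nonneg (fun k _ => by positivity)]
      exact Finset.sum_congr rfl fun k _ => hlaw k
    · intro i _ j _ hij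
      refine Set.disjoint_left.2 fun ω h3 h4 => hij ?_
      have h5 : (i : ℕ∞) = j := h3.symm.trans h4
      exact_mod_cast h5
    · intro k _
      exact hms k
  have h3 : MeasurableSet {ω | N ω ≤ (T : ℕ∞)} := by
    rw [h1]
    exact MeasurableSet.biUnion (Finset.countable_toSet _) fun k _ => hms k
  have h4 : {ω | ¬ N ω ≤ (T : ℕ∞)} = {ω | N ω ≤ (T : ℕ∞)}ᶜ := rfl
  rw [h4, prob_compl_eq_one_sub h3, h2]
  have h5 := poisson_head m hm T
  rw [← ENNReal.ofReal_one, ← ENNReal.ofReal_sub _ (Finset.sum_nonneg fun k _ => by positivity)]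
  exact ENNReal.ofReal_le_ofReal (by linarith)

/-! ### the scales -/

/-- number of stubs of a giant at scale `k` -/
noncomputable def TT (v : ℝ) (d k : ℕ) : ℕ :=
  ⌈((k : ℝ) + 1) ^ 2 * (v * (3 * (2 : ℝ) ^ (k + 1)) ^ d)⌉₊ + k

theorem TT_mono {v : ℝ} (hv : 0 < v) (d : ℕ) : Monotone (TT v d) := by
  intro j k hjk
  unfold TT
  refine Nat.add_le_add (Nat.ceil_mono ?_) hjk
  have h1 : (j : ℝ) ≤ k := by exact_mod_cast hjk
  have h2 : (2 : ℝ) ^ (j + 1) ≤ 2 ^ (k + 1) := pow_le_pow_right₀ (by norm_num) (by omega)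
  gcongr

theorem TT_ge (v : ℝ) (d k : ℕ) : k ≤ TT v d k := by
  unfold TT
  omega

theorem TT_top (v : ℝ) (d : ℕ) : Tendsto (TT v d) atTop atTop :=
  tendsto_atTop_mono (fun k => TT_ge v d k) tendsto_id

/-- the expected number of giants at scale `k` is at least `k` for large `k` -/
theorem lam_ge {μ : Measure ℕ} [IsProbabilityMeasure μ] (hμ : Heavy μ) {v : ℝ} (hv : 0 < v)
    {d : ℕ} (hd : 1 ≤ d) : ∀ᶠ k : ℕ in atTop,
    (k : ℝ) ≤ v * ((2 : ℝ) ^ k) ^ d * μ.real (Set.Ici (TT v d k)) := by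
  obtain ⟨c, a', hc, ha', hμ'⟩ := hμ
  obtain ⟨a, ha0, ha, hμ⟩ : ∃ a : ℝ, 0 ≤ a ∧ a < 1 ∧
      ∀ n : ℕ, 1 ≤ n → c * (n : ℝ) ^ (-a) ≤ μ.real (Set.Ici n) := by
    refine ⟨max a' 0, le_max_right _ _, max_lt ha' one_pos, fun n hn => le_trans ?_ (hμ' n hn)⟩
    have h1 : (1 : ℝ) ≤ n := by exact_mod_cast hn
    refine mul_le_mul_of_nonneg_left ?_ hc.le
    exact Real.rpow_le_rpow_of_exponent_le h1 (by
      have := le_max_left a' 0
      linarith)
  set C : ℝ := v * 6 ^ d + 2 with hC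
  have hCpos : 0 < C := by positivity
  -- upper bound of `TT`
  have hT : ∀ k : ℕ, (TT v d k : ℝ) ≤ C * ((k : ℝ) + 1) ^ 2 * ((2 : ℝ) ^ k) ^ d := by
    intro k
    unfold TT
    push_cast
    have h1 : (⌈((k : ℝ) + 1) ^ 2 * (v * (3 * (2 : ℝ) ^ (k + 1)) ^ d)⌉₊ : ℝ) <
        ((k : ℝ) + 1) ^ 2 * (v * (3 * (2 : ℝ) ^ (k + 1)) ^ d) + 1 :=
      Nat.ceil_lt_add_one (by positivity)
    have h2 : (3 * (2 : ℝ) ^ (k + 1)) ^ d = 6 ^ d * ((2 : ℝ) ^ k) ^ d := by
      rw [← mul_pow]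
      congr 1
      ring
    have h3 : (1 : ℝ) ≤ ((2 : ℝ) ^ k) ^ d := one_le_pow₀ (one_le_pow₀ (by norm_num))
    have h4 : (0 : ℝ) ≤ k := Nat.cast_nonneg k
    have h5 : (k : ℝ) + 1 ≤ ((k : ℝ) + 1) ^ 2 := by nlinarith
    have h6 : (k : ℝ) + 1 ≤ ((k : ℝ) + 1) ^ 2 * ((2 : ℝ) ^ k) ^ d := by
      calc (k : ℝ) + 1 ≤ ((k : ℝ) + 1) ^ 2 * 1 := by rw [mul_one]; exact h5
        _ ≤ _ := by gcongr
    rw [h2] at h1
    rw [h2]
    nlinarith
  -- growth
  set ρ : ℝ := (2 : ℝ) ^ (-(1 - a)) with hρ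
  have hρ0 : 0 < ρ := by positivity
  have hρ1 : ρ < 1 := by
    rw [hρ]
    exact Real.rpow_lt_one_of_one_lt_of_neg (by norm_num) (by linarith)
  have hlim := tendsto_pow_const_mul_const_pow_of_abs_lt_one 3 (r := ρ)
    (by rw [abs_of_pos hρ0]; exact hρ1)
  set c' : ℝ := v * c * C ^ (-a) with hc'
  have hc'pos : 0 < c' := by positivity
  have hev : ∀ᶠ k : ℕ in atTop, (k : ℝ) ^ 3 * ρ ^ k < c' / 4 :=
    (tendsto_order.1 hlim).2 _ (by positivity)
  filter_upwards [hev, eventually_ge_atTop 1] with k hk hk1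
  have hk1' : (1 : ℝ) ≤ k := by exact_mod_cast hk1
  have hT1 : 1 ≤ TT v d k := hk1.trans (TT_ge v d k)
  have hT0 : (0 : ℝ) < TT v d k := by exact_mod_cast hT1
  set x : ℝ := ((2 : ℝ) ^ k) ^ d with hx
  have hx1 : (2 : ℝ) ^ k ≤ x := by
    rw [hx]
    exact le_self_pow₀ (one_le_pow₀ (by norm_num)) (by omega)
  have h2k : (0 : ℝ) < (2 : ℝ) ^ k := by positivity
  have hxpos : 0 < x := by positivity
  have e1 : (C * ((k : ℝ) + 1) ^ 2 * x) ^ (-a) ≤ (TT v d k : ℝ) ^ (-a) :=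
    Real.rpow_le_rpow_of_nonpos hT0 (hT k) (by linarith)
  have e2 : (C * ((k : ℝ) + 1) ^ 2 * x) ^ (-a) =
      C ^ (-a) * (((k : ℝ) + 1) ^ 2) ^ (-a) * x ^ (-a) := by
    rw [Real.mul_rpow (by positivity) hxpos.le, Real.mul_rpow hCpos.le (by positivity)]
  have e3 : (((k : ℝ) + 1) ^ 2)⁻¹ ≤ (((k : ℝ) + 1) ^ 2) ^ (-a) := by
    rw [← Real.rpow_neg_one]
    exact Real.rpow_le_rpow_of_exponent_le (by nlinarith) (by linarith)
  have e4 : x * x ^ (-a) = x ^ (1 - a) := by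
    rw [show (1 - a) = 1 + (-a) by ring, Real.rpow_add hxpos, Real.rpow_one]
  have e5 : (ρ ^ k)⁻¹ ≤ x ^ (1 - a) := by
    have : (ρ ^ k)⁻¹ = ((2 : ℝ) ^ k) ^ (1 - a) := by
      rw [hρ, ← Real.rpow_natCast, ← Real.rpow_mul (by norm_num), ← Real.rpow_neg (by norm_num),
        ← Real.rpow_natCast, ← Real.rpow_mul (by norm_num)]
      congr 1
      ring
    rw [this]
    exact Real.rpow_le_rpow h2k.le hx1 (by linarith)
  have hρk : 0 < ρ ^ k := by positivity
  have e6 : (k : ℝ) ≤ c' * (((k : ℝ) + 1) ^ 2)⁻¹ * (ρ ^ k)⁻¹ := by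
    rw [mul_assoc, ← mul_inv, ← div_eq_mul_inv, le_div_iff₀ (by positivity)]
    have h7 : ((k : ℝ) + 1) ^ 2 ≤ 4 * (k : ℝ) ^ 2 := by nlinarith
    calc (k : ℝ) * (((k : ℝ) + 1) ^ 2 * ρ ^ k) ≤ k * (4 * (k : ℝ) ^ 2 * ρ ^ k) := by gcongr
      _ = 4 * ((k : ℝ) ^ 3 * ρ ^ k) := by ring
      _ ≤ 4 * (c' / 4) := by gcongr
      _ = c' := by ring
  have hrho' : 0 < (ρ ^ k)⁻¹ := by positivity
  calc (k : ℝ) ≤ c' * (((k : ℝ) + 1) ^ 2)⁻¹ * (ρ ^ k)⁻¹ := e6
    _ ≤ c' * (((k : ℝ) + 1) ^ 2) ^ (-a) * x ^ (1 - a) := by gcongr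
    _ = v * x * (c * (C * ((k : ℝ) + 1) ^ 2 * x) ^ (-a)) := by
        rw [e2, ← e4, hc']
        ring
    _ ≤ v * x * (c * (TT v d k : ℝ) ^ (-a)) := by gcongr
    _ ≤ v * x * μ.real (Set.Ici (TT v d k)) := by
        gcongr
        exact hμ _ hT1

/-! ### giants occur at all scales -/

theorem ae_giants {E Ω : Type} [MetricSpace E] [MeasureSpace E] [OpensMeasurableSpace E]
    [MeasurableSpace Ω] {P : Measure Ω} [IsProbabilityMeasure P] {μ : Measure ℕ}
    [IsProbabilityMeasure μ] (hμ : Heavy μ) {Q : Ω → Set E} {D : Ω → E → ℕ}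
    (h : IsMarkedPoisson P μ Q D) (o : E) {v : ℝ} (hv : 0 < v) {d : ℕ} (hd : 1 ≤ d)
    (hvol : ∀ r : ℝ, 0 ≤ r → volume (closedBall o r) = ENNReal.ofReal (v * r ^ d)) :
    ∀ᵐ ω ∂P, Giants (Q ω) (D ω) o (fun k => (2 : ℝ) ^ k) (TT v d) := by
  -- few points
  have h1 : ∀ᵐ ω ∂P, ∀ᶠ k : ℕ in atTop,
      (Q ω ∩ closedBall o (3 * (2 : ℝ) ^ (k + 1))).encard ≤ TT v d k := by
    have hb : ∀ k : ℕ, P {ω | ¬ (Q ω ∩ closedBall o (3 * (2 : ℝ) ^ (k + 1))).encard ≤
        (TT v d k : ℕ∞)} ≤ ENNReal.ofReal (1 / ((k : ℝ) + 1) ^ 2) := by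
      intro k
      set A : Set (E × ℕ) := closedBall o (3 * (2 : ℝ) ^ (k + 1)) ×ˢ univ with hA
      have hAm : MeasurableSet A := (isClosed_closedBall.measurableSet).prod MeasurableSet.univ
      have hAv : (volume.prod μ) A = ENNReal.ofReal (v * (3 * (2 : ℝ) ^ (k + 1)) ^ d) := by
        rw [hA, Measure.prod_prod, hvol _ (by positivity), measure_univ, mul_one]
      have hcount : ∀ ω, count (Q ω) (D ω) A =
          (Q ω ∩ closedBall o (3 * (2 : ℝ) ^ (k + 1))).encard := by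
        intro ω
        unfold count
        congr 1
        ext x
        simp [hA]
      have hlaw := h.law_count A hAm (by rw [hAv]; exact ENNReal.ofReal_ne_top)
      rw [hAv, ENNReal.toReal_ofReal (by positivity)] at hlaw
      have h2 := poisson_tail (h.measurable_count A hAm)
        (show 0 ≤ v * (3 * (2 : ℝ) ^ (k + 1)) ^ d by positivity) hlaw (TT v d k)
      simp only [hcount] at h2
      refine h2.trans (ENNReal.ofReal_le_ofReal ?_)
      rw [div_le_div_iff₀ (by positivity) (by positivity), one_mul]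
      have h3 : ((k : ℝ) + 1) ^ 2 * (v * (3 * (2 : ℝ) ^ (k + 1)) ^ d) ≤ TT v d k := by
        unfold TT
        push_cast
        have := Nat.le_ceil (((k : ℝ) + 1) ^ 2 * (v * (3 * (2 : ℝ) ^ (k + 1)) ^ d))
        have h4 : (0 : ℝ) ≤ k := Nat.cast_nonneg k
        linarith
      linarith
    have hsum : ∑' k : ℕ, P {ω | ¬ (Q ω ∩ closedBall o (3 * (2 : ℝ) ^ (k + 1))).encard ≤
        (TT v d k : ℕ∞)} ≠ ⊤ := by
      refine ne_top_of_le_ne_top ?_ (ENNReal.tsum_le_tsum hb)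
      refine Summable.tsum_ofReal_ne_top ?_
      have h3 : Summable fun k : ℕ => 1 / ((k : ℝ)) ^ 2 :=
        Real.summable_one_div_nat_pow.2 (by norm_num)
      have h4 := (summable_nat_add_iff 1).2 h3
      refine h4.congr fun k => ?_
      push_cast
      rfl
    filter_upwards [ae_eventually_notMem hsum] with ω hω
    filter_upwards [hω] with k hk
    exact not_not.1 hk
  -- giants
  have h2 : ∀ᵐ ω ∂P, ∀ᶠ k : ℕ in atTop,
      ∃ x ∈ Q ω ∩ closedBall o ((2 : ℝ) ^ k), TT v d k ≤ D ω x := by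
    obtain ⟨K, hK⟩ := eventually_atTop.1 (lam_ge hμ hv hd)
    have hb : ∀ k : ℕ, P {ω | ¬ ∃ x ∈ Q ω ∩ closedBall o ((2 : ℝ) ^ (k + K)),
        TT v d (k + K) ≤ D ω x} ≤ ENNReal.ofReal (Real.exp (-k)) := by
      intro k
      set A : Set (E × ℕ) := closedBall o ((2 : ℝ) ^ (k + K)) ×ˢ Set.Ici (TT v d (k + K)) with hA
      have hAm : MeasurableSet A :=
        (isClosed_closedBall.measurableSet).prod (MeasurableSet.of_discrete)
      have hAv : (volume.prod μ) A = ENNReal.ofReal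
          (v * ((2 : ℝ) ^ (k + K)) ^ d * μ.real (Set.Ici (TT v d (k + K)))) := by
        rw [hA, Measure.prod_prod, hvol _ (by positivity),
          ENNReal.ofReal_mul (p := v * ((2 : ℝ) ^ (k + K)) ^ d) (by positivity)]
        congr 1
        rw [Measure.real, ENNReal.ofReal_toReal (measure_ne_top _ _)]
      have hnn : 0 ≤ v * ((2 : ℝ) ^ (k + K)) ^ d * μ.real (Set.Ici (TT v d (k + K))) := by
        have := measureReal_nonneg (μ := μ) (s := Set.Ici (TT v d (k + K)))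
        positivity
      have hlaw := h.law_count A hAm (by rw [hAv]; exact ENNReal.ofReal_ne_top) 0
      rw [hAv, ENNReal.toReal_ofReal hnn] at hlaw
      have hset : {ω | ¬ ∃ x ∈ Q ω ∩ closedBall o ((2 : ℝ) ^ (k + K)),
        TT v d (k + K) ≤ D ω x} = {ω | count (Q ω) (D ω) A = ((0 : ℕ) : ℕ∞)} := by
        ext ω
        simp only [Set.mem_ofPred_eq, Nat.cast_zero, count, Set.encard_eq_zero,
          Set.eq_empty_iff_forall_notMem, hA, Set.mem_prod, Set.mem_Ici]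
        constructor
        · rintro h1 x ⟨hx, hx2, hx3⟩
          exact h1 ⟨x, ⟨hx, hx2⟩, hx3⟩
        · rintro h1 ⟨x, hx, hx3⟩
          exact h1 x ⟨hx.1, hx.2, hx3⟩
      rw [hset, hlaw]
      refine ENNReal.ofReal_le_ofReal ?_
      simp only [pow_zero, mul_one, Nat.factorial_zero, Nat.cast_one, div_one]
      refine Real.exp_le_exp.2 (neg_le_neg ?_)
      have h5 := hK (k + K) (by omega)
      push_cast at h5
      have h6 : (0 : ℝ) ≤ K := Nat.cast_nonneg K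
      linarith
    have hsum : ∑' k : ℕ, P {ω | ¬ ∃ x ∈ Q ω ∩ closedBall o ((2 : ℝ) ^ (k + K)),
        TT v d (k + K) ≤ D ω x} ≠ ⊤ :=
      ne_top_of_le_ne_top (Summable.tsum_ofReal_ne_top Real.summable_exp_neg_nat)
        (ENNReal.tsum_le_tsum hb)
    filter_upwards [ae_eventually_notMem hsum] with ω hω
    obtain ⟨K', hK'⟩ := eventually_atTop.1 hω
    refine eventually_atTop.2 ⟨K' + K, fun k hk => ?_⟩
    have := hK' (k - K) (by omega)
    rw [show k - K + K = k by omega] at this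
    exact not_not.1 this
  filter_upwards [h1, h2] with ω e1 e2
  exact ⟨fun i j hij => pow_le_pow_right₀ (by norm_num) hij, TT_mono hv d,
    tendsto_pow_atTop_atTop_of_one_lt (by norm_num), TT_top v d, e2, e1⟩

/-- **Main theorem.** Heavy-tailed degrees: a stable multi-matching exists, and every stable
multi-matching uses all stubs and has an infinite component. -/
theorem main {E Ω : Type} [MetricSpace E] [MeasureSpace E] [OpensMeasurableSpace E]
    [MeasurableSpace Ω] {P : Measure Ω} [IsProbabilityMeasure P] {μ : Measure ℕ}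
    [IsProbabilityMeasure μ] (hμ : Heavy μ) {Q : Ω → Set E} {D : Ω → E → ℕ}
    (h : IsMarkedPoisson P μ Q D) (o : E) {v : ℝ} (hv : 0 < v) {d : ℕ} (hd : 1 ≤ d)
    (hvol : ∀ r : ℝ, 0 ≤ r → volume (closedBall o r) = ENNReal.ofReal (v * r ^ d)) :
    ∀ᵐ ω ∂P, (∃ G, IsStableMultiMatching (Q ω) (D ω) G) ∧
      ∀ G, IsStableMultiMatching (Q ω) (D ω) G →
        (∀ x ∈ Q ω, (G.neighborSet x).encard = D ω x) ∧ HasInfiniteComponent G := by
  filter_upwards [ae_giants hμ h o hv hd hvol] with ω g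
  refine ⟨exists_stable _ _ ?_ g.locFin, fun G hG => ⟨g.saturated hG, g.infinite hG⟩⟩
  have h1 : Q ω = ⋃ n : ℕ, Q ω ∩ closedBall o n := by
    ext x
    simp only [Set.mem_iUnion, Set.mem_inter_iff, mem_closedBall, exists_and_left]
    constructor
    · intro hx
      exact ⟨hx, exists_nat_ge _⟩
    · exact fun hx => hx.1
  rw [h1]
  exact Set.countable_iUnion fun n => (g.locFin o n).countable

end Pool.Agent.N956.MM
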